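import Pool.Agent.W659.EC.Fin

/-!
# Brown–Voiculescu entropy is strictly smaller than the coloured entropies

There is a separable unital C*-algebra `A` of decomposition rank and nuclear dimension zero (that
is, an AF algebra) and an inner automorphism `α` of `A` such that `ht(α) = 0`, while
`ht_nuc(α) ≥ (log 2)/4` and `ht_dr(α) ≥ (log 2)/4`.

## The example

Level `p` has the matrix algebra `Mt p` of all matrices over `Option (Fin (2^p))` and the space
`Pt p` of all real points `x` with `x_i` in the dyadic interval `[i 2^{-p}, (i+1) 2^{-p})`.
`A` is an algebra of bounded sections over all the levels, the closure of the union of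
finite-dimensional algebras `S_d`; a section in `S_d` is, at level `p ≤ d`, a function of the first
`d` binary digits of the coordinates of `x`, and from level `d` on it is constant on each level and
its values are the images of one element under explicit connecting maps. The unitary `w` is the
section `x ↦ diag(1, e^{2πi x_j})`.

* `ht(α) = 0`: the restriction to the levels `≤ q` has matrix sizes bounded independently of the
  number `n` of iterates, and polynomially many (in `n`) points suffice there. The remaining levels
  are recovered by a unital completely positive map which averages over random choices of one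
  child of every dyadic interval; it commutes with `α`.
* lower bound: for a one-colour system `(F, ψ, φ)` for `v, p_Ω` and `n = 2^{p+1}` iterates, `φ` is
  order zero, so every point `x` of level `p` determines one of the `rank F` minimal projections of
  `F` in a spectral decomposition of `ψ(p_Ω)`; the Fourier transform of `ψ(α^j(v))`, `j < n`, and
  the Schwarz inequality show that this label determines `x` up to a small Hamming ball among
  `2^{n/2}` separated points.
-/

set_option autoImplicit false

open scoped Matrix.Norms.L2Operator ENNReal Matrix

noncomputable section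

namespace Pool.Agent.Results.MP_ec8bff_an.EntropyGap

open Pool.Agent.W659.EC

/-- There is a separable unital C*-algebra of decomposition rank zero and an inner automorphism
`α = Ad w` of it with `ht(α) = 0`, `ht_nuc(α) ≥ (log 2)/4` and `ht_dr(α) ≥ (log 2)/4`; in
particular `ht(α) < ht_nuc(α)` and `ht(α) < ht_dr(α)`. -/
theorem result : ∃ (A : Type) (_ : CStarAlgebra A) (w : A) (α : A →⋆ₙₐ[ℂ] A),
    TopologicalSpace.SeparableSpace A ∧ decRank A = 0 ∧ nucDim A = 0 ∧
    (star w * w = 1 ∧ w * star w = 1 ∧ ∀ a, α a = w * a * star w) ∧
    ht α = 0 ∧ ((Real.log 2 / 4 : ℝ) : EReal) ≤ htNuc α ∧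
    ((Real.log 2 / 4 : ℝ) : EReal) ≤ htDr α ∧ ht α < htNuc α ∧ ht α < htDr α := by
  have h0 : (0 : EReal) < ((Real.log 2 / 4 : ℝ) : EReal) := by
    rw [← EReal.coe_zero, EReal.coe_lt_coe_iff]
    have := Real.log_pos (by norm_num : (1 : ℝ) < 2)
    positivity
  exact ⟨AA, instAA, wA, al, inferInstance, decRank_AA, nucDim_AA,
    ⟨wA_star_mul, wA_mul_star, fun a => rfl⟩, ht_al, htNuc_al, htDr_al,
    ht_al.symm ▸ h0.trans_le htNuc_al, ht_al.symm ▸ h0.trans_le htDr_al⟩

end Pool.Agent.Results.MP_ec8bff_an.EntropyGap
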